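import Mathlib

set_option autoImplicit false

open Set Topology Filter

namespace Pool.Agent.Results.MP_091ced_gt.SecondDerivedSetClosed

/-- In a T0 space the second derived set of every subset is closed. -/
theorem result : ∀ (X : Type*) [TopologicalSpace X] [T0Space X] (A : Set X),
    IsClosed {x : X | x ∈ closure
      ({y : X | y ∈ closure (A \ {y})} \ {x})} := by
  intro X _ _ A
  set D : Set X := {y : X | y ∈ closure (A \ {y})} with hD
  have hmemD : ∀ x, x ∈ D ↔ ∀ U, IsOpen U → x ∈ U → ∃ a ∈ A, a ∈ U ∧ a ≠ x := by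
    intro x
    rw [hD, mem_ofPred_eq, mem_closure_iff]
    constructor
    · intro h U hU hx
      obtain ⟨a, haU, haA, hax⟩ := h U hU hx
      exact ⟨a, haA, haU, hax⟩
    · intro h U hU hx
      obtain ⟨a, haA, haU, hax⟩ := h U hU hx
      exact ⟨a, haU, haA, hax⟩
  have hmemDD : ∀ x, x ∈ {x : X | x ∈ closure (D \ {x})} ↔
      ∀ U, IsOpen U → x ∈ U → ∃ a ∈ D, a ∈ U ∧ a ≠ x := by
    intro x
    rw [mem_ofPred_eq, mem_closure_iff]
    constructor
    · intro h U hU hx
      obtain ⟨a, haU, haA, hax⟩ := h U hU hx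
      exact ⟨a, haA, haU, hax⟩
    · intro h U hU hx
      obtain ⟨a, haA, haU, hax⟩ := h U hU hx
      exact ⟨a, haU, haA, hax⟩
  apply isClosed_of_closure_subset
  intro x hx
  by_contra hxn
  rw [hmemDD] at hxn
  push Not at hxn
  obtain ⟨U, hU, hxU, hUD⟩ := hxn
  -- `U` contains no point of the derived set other than `x`
  obtain ⟨y, hyU, hy⟩ := mem_closure_iff.1 hx U hU hxU
  rw [hmemDD] at hy
  have hxy : ∀ V, IsOpen V → y ∈ V → x ∈ V ∧ x ∈ D ∧ x ≠ y := by
    intro V hV hyV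
    obtain ⟨a, haD, ⟨haV, haU⟩, hay⟩ := hy (V ∩ U) (hV.inter hU) ⟨hyV, hyU⟩
    have := hUD a haD haU
    subst this
    exact ⟨haV, haD, hay⟩
  obtain ⟨-, hxD, hxney⟩ := hxy univ isOpen_univ trivial
  have hyD : y ∉ D := fun h => hxney (hUD y h hyU).symm
  rw [hmemD] at hyD
  push Not at hyD
  obtain ⟨N, hN, hyN, hNA⟩ := hyD
  have hyx : ∀ M, IsOpen M → x ∈ M → y ∈ M := by
    intro M hM hxM
    obtain ⟨a, haA, ⟨haM, haN⟩, -⟩ := (hmemD x).1 hxD (M ∩ N) (hM.inter hN)
      ⟨hxM, (hxy N hN hyN).1⟩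
    have := hNA a haA haN
    subst this
    exact haM
  apply hxney
  apply Inseparable.eq
  rw [inseparable_iff_forall_isOpen]
  intro V hV
  exact ⟨fun h => hyx V hV h, fun h => (hxy V hV h).1⟩

end Pool.Agent.Results.MP_091ced_gt.SecondDerivedSetClosed
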